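import Mathlib

open scoped Matrix.Norms.L2Operator ComplexConjugate
open Matrix

namespace Pool.Agent.Results.MP_c77999_an.StrictMono

/-- The Schur multiplier norm of a complex `n × n` matrix `M`: the supremum of the
Euclidean operator norms `‖M ∘ A‖` of the entrywise products of `M` with complex matrices
`A` of Euclidean operator norm at most one. -/
noncomputable def schurNorm {n : ℕ} (M : Matrix (Fin n) (Fin n) ℂ) : ℝ :=
  sSup {t : ℝ | ∃ A : Matrix (Fin n) (Fin n) ℂ, ‖A‖ ≤ 1 ∧ t = ‖Matrix.hadamard M A‖}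

/-- The set of `n × n` matrices all of whose entries are `1` or `-1`. -/
def signMatrices (n : ℕ) : Set (Matrix (Fin n) (Fin n) ℂ) :=
  {M | ∀ i j, M i j = 1 ∨ M i j = -1}

/-- The maximum of the Schur multiplier norm over the (finite) set of sign matrices. -/
noncomputable def r (n : ℕ) : ℝ := sSup (schurNorm '' signMatrices n)

/-! ### Elementary facts on the Euclidean operator norm -/

lemma norm_le_one_of {m n : Type*} [Fintype m] [Fintype n] [DecidableEq n] [DecidableEq m]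
    (A : Matrix m n ℂ)
    (h : ∀ v : n → ℂ, ∑ i, ‖(A *ᵥ v) i‖ ^ 2 ≤ ∑ j, ‖v j‖ ^ 2) : ‖A‖ ≤ 1 := by
  rw [Matrix.l2_opNorm_def]
  refine ContinuousLinearMap.opNorm_le_bound _ zero_le_one ?_
  intro x
  rw [one_mul]
  rw [EuclideanSpace.norm_eq, EuclideanSpace.norm_eq]
  exact Real.sqrt_le_sqrt (h x.ofLp)

lemma mulVec_sq_le {m n : Type*} [Fintype m] [Fintype n] [DecidableEq n] [DecidableEq m]
    (A : Matrix m n ℂ) (v : n → ℂ) :
    ∑ i, ‖(A *ᵥ v) i‖ ^ 2 ≤ ‖A‖ ^ 2 * ∑ j, ‖v j‖ ^ 2 := by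
  have h := Matrix.l2_opNorm_mulVec A (WithLp.toLp 2 v)
  rw [EuclideanSpace.norm_eq, EuclideanSpace.norm_eq] at h
  have h0 : 0 ≤ ∑ i, ‖(A *ᵥ v) i‖ ^ 2 := by positivity
  have h1 : 0 ≤ ∑ i, ‖v i‖ ^ 2 := by positivity
  have h2 := pow_le_pow_left₀ (Real.sqrt_nonneg _) h 2
  rw [mul_pow, Real.sq_sqrt, Real.sq_sqrt h1] at h2
  · exact h2
  · exact h0

/-- In finite dimension the operator norm is attained. -/
lemma exists_unit {m n : Type*} [Fintype m] [Fintype n] [DecidableEq n] [DecidableEq m]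
    (A : Matrix m n ℂ) (hA : 0 < ‖A‖) :
    ∃ v : n → ℂ, ∑ j, ‖v j‖ ^ 2 = 1 ∧ ∑ i, ‖(A *ᵥ v) i‖ ^ 2 = ‖A‖ ^ 2 := by
  have hc : IsCompact (Metric.closedBall (0 : EuclideanSpace ℂ n) 1) :=
    isCompact_closedBall _ _
  obtain ⟨v, hv, hmax⟩ := hc.exists_isMaxOn ⟨0, by simp⟩
    (f := fun v => ‖((Matrix.toEuclideanLin (𝕜 := ℂ) (m := m) (n := n)).trans
      LinearMap.toContinuousLinearMap A) v‖) (by fun_prop)
  have hv1 : ‖v‖ ≤ 1 := by simpa using hv
  set T := ((Matrix.toEuclideanLin (𝕜 := ℂ) (m := m) (n := n)).trans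
      LinearMap.toContinuousLinearMap A) with hT
  have hTn : ‖T‖ = ‖A‖ := (Matrix.l2_opNorm_def A).symm
  have hle : ‖T‖ ≤ ‖T v‖ := by
    refine ContinuousLinearMap.opNorm_le_of_unit_norm (norm_nonneg _) ?_
    intro x hx
    exact hmax (by simp [hx])
  have hle2 : ‖T v‖ ≤ ‖T‖ * ‖v‖ := T.le_opNorm v
  have hv2 : ‖v‖ = 1 := by
    rw [hTn] at hle hle2
    nlinarith [norm_nonneg v]
  have hTv : ‖T v‖ = ‖A‖ := by
    rw [hTn] at hle hle2
    rw [hv2, mul_one] at hle2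
    exact le_antisymm hle2 hle
  refine ⟨v.ofLp, ?_, ?_⟩
  · have := hv2
    rw [EuclideanSpace.norm_eq] at this
    have h1 : 0 ≤ ∑ i, ‖v.ofLp i‖ ^ 2 := by positivity
    rw [← Real.sq_sqrt h1, this, one_pow]
  · have h2 : ‖T v‖ = √(∑ i, ‖(A *ᵥ v.ofLp) i‖ ^ 2) := by
      rw [EuclideanSpace.norm_eq]
      rfl
    have h1 : 0 ≤ ∑ i, ‖(A *ᵥ v.ofLp) i‖ ^ 2 := by positivity
    rw [← Real.sq_sqrt h1, ← h2, hTv]

/-! ### Choosing signs -/

lemma exists_signs {p : Type*} [DecidableEq p] (G : p → p → ℝ) (s : Finset p) :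
    ∃ m : p → ℝ, (∀ i, m i = 1 ∨ m i = -1) ∧
      ∑ i ∈ s, ∑ l ∈ s, m i * m l * G i l ≤ ∑ i ∈ s, G i i := by
  induction s using Finset.induction_on with
  | empty => exact ⟨fun _ => 1, fun _ => Or.inl rfl, by simp⟩
  | insert a s ha ih =>
    obtain ⟨m, hm, hle⟩ := ih
    set L : ℝ := ∑ l ∈ s, m l * G a l + ∑ i ∈ s, m i * G i a with hL
    set e : ℝ := if 0 ≤ L then -1 else 1 with he
    have he1 : e = 1 ∨ e = -1 := by
      rw [he]; split_ifs <;> simp
    have heL : e * L ≤ 0 := by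
      rw [he]; split_ifs with h <;> nlinarith
    have hee : e * e = 1 := by rcases he1 with h | h <;> rw [h] <;> norm_num
    refine ⟨Function.update m a e, ?_, ?_⟩
    · intro i
      by_cases hi : i = a
      · subst hi; simpa using he1
      · simpa [Function.update_of_ne hi] using hm i
    · have key : ∀ i ∈ s, Function.update m a e i = m i := by
        intro i hi
        exact Function.update_of_ne (by rintro rfl; exact ha hi) _ _
      rw [Finset.sum_insert ha, Finset.sum_insert ha, Finset.sum_insert ha]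
      have h1 : ∑ l ∈ s, Function.update m a e a * Function.update m a e l * G a l
          = e * ∑ l ∈ s, m l * G a l := by
        rw [Finset.mul_sum]
        refine Finset.sum_congr rfl fun l hl => ?_
        rw [key l hl, Function.update_self]; ring
      have h2 : ∑ i ∈ s, ∑ l ∈ insert a s,
          Function.update m a e i * Function.update m a e l * G i l
          = e * ∑ i ∈ s, m i * G i a + ∑ i ∈ s, ∑ l ∈ s, m i * m l * G i l := by
        rw [Finset.mul_sum, ← Finset.sum_add_distrib]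
        refine Finset.sum_congr rfl fun i hi => ?_
        rw [Finset.sum_insert ha, Function.update_self, key i hi]
        congr 1
        · ring
        · refine Finset.sum_congr rfl fun l hl => ?_
          rw [key l hl]
      rw [h1, h2, Function.update_self]
      have : e * e * G a a = G a a := by rw [hee, one_mul]
      nlinarith [heL, hle, hL]

/-! ### Adding a column -/

/-- `M` with an extra last column `m`. -/
def addCol {p : Type*} {n : ℕ} (M : Matrix p (Fin n) ℂ) (m : p → ℂ) :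
    Matrix p (Fin (n + 1)) ℂ :=
  Matrix.of fun i => Fin.snoc (α := fun _ => ℂ) (M i) (m i)

lemma addCol_castSucc {p : Type*} {n : ℕ} (M : Matrix p (Fin n) ℂ) (m : p → ℂ) (i : p)
    (j : Fin n) : addCol M m i (Fin.castSucc j) = M i j := by
  simp [addCol]

lemma addCol_last {p : Type*} {n : ℕ} (M : Matrix p (Fin n) ℂ) (m : p → ℂ) (i : p) :
    addCol M m i (Fin.last n) = m i := by
  simp [addCol]

lemma contraction_aux {p : Type*} [Fintype p] [DecidableEq p] {n : ℕ}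
    (A : Matrix p (Fin n) ℂ) (hA : ‖A‖ ≤ 1) (a : p → ℂ) (α κ : ℝ)
    (hα : ∑ i, ‖a i‖ ^ 2 = α) (hα1 : α ≤ 1) (hκ : κ = (1 + α) / 2) :
    ‖addCol (Matrix.of fun i j => A i j - κ * a i * ∑ l, conj (a l) * A l j) a‖ ≤ 1 := by
  have hα0 : 0 ≤ α := by rw [← hα]; positivity
  rw [← Matrix.l2_opNorm_conjTranspose]
  apply norm_le_one_of
  intro v
  rw [Fin.sum_univ_castSucc]
  obtain ⟨σ, hσ⟩ : ∃ σ : ℂ, σ = ∑ i, conj (a i) * v i := ⟨_, rfl⟩
  set u : p → ℂ := fun i => v i - κ * σ * a i with hu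
  have hlast : ((addCol (Matrix.of fun i j => A i j - κ * a i * ∑ l, conj (a l) * A l j) a)ᴴ
      *ᵥ v) (Fin.last n) = σ := by
    simp [Matrix.mulVec, dotProduct, Matrix.conjTranspose_apply, addCol_last, hσ]
  have hcast : ∀ j : Fin n,
      ((addCol (Matrix.of fun i j => A i j - κ * a i * ∑ l, conj (a l) * A l j) a)ᴴ
      *ᵥ v) (Fin.castSucc j) = (Aᴴ *ᵥ u) j := by
    intro j
    simp only [Matrix.mulVec, dotProduct, Matrix.conjTranspose_apply, addCol_castSucc,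
      Matrix.of_apply, hu]
    have e1 : ∑ x, star (A x j) * (v x - κ * σ * a x)
        = ∑ x, star (A x j) * v x - κ * σ * ∑ x, a x * star (A x j) := by
      rw [Finset.mul_sum, ← Finset.sum_sub_distrib]
      exact Finset.sum_congr rfl fun x _ => by ring
    have e2 : ∀ x, star (A x j - κ * a x * ∑ l, conj (a l) * A l j) * v x
        = star (A x j) * v x - κ * (conj (a x) * v x) * ∑ l, a l * star (A l j) := by
      intro x
      have : star (∑ l, conj (a l) * A l j) = ∑ l, a l * star (A l j) := by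
        rw [star_sum]
        exact Finset.sum_congr rfl fun l _ => by simp [mul_comm]
      rw [star_sub, star_mul, star_mul, this]
      simp
      ring
    rw [Finset.sum_congr rfl fun x _ => e2 x, Finset.sum_sub_distrib, e1]
    congr 1
    rw [← Finset.sum_mul, ← Finset.mul_sum, ← hσ]
  have h1 : ∑ j : Fin n, ‖(Aᴴ *ᵥ u) j‖ ^ 2 ≤ ∑ i, ‖u i‖ ^ 2 := by
    refine (mulVec_sq_le Aᴴ u).trans ?_
    have : ‖Aᴴ‖ ^ 2 ≤ 1 := by
      rw [Matrix.l2_opNorm_conjTranspose]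
      exact pow_le_one₀ (norm_nonneg _) hA
    have h0 : 0 ≤ ∑ i, ‖u i‖ ^ 2 := by positivity
    nlinarith
  have h2 : ∑ i, ‖u i‖ ^ 2 = ∑ i, ‖v i‖ ^ 2 - 2 * κ * ‖σ‖ ^ 2 + κ ^ 2 * ‖σ‖ ^ 2 * α := by
    have e : ∀ i, ‖u i‖ ^ 2 = ‖v i‖ ^ 2 - 2 * κ * (conj σ * (conj (a i) * v i)).re
        + κ ^ 2 * ‖σ‖ ^ 2 * ‖a i‖ ^ 2 := by
      intro i
      rw [hu]
      simp only [← Complex.normSq_eq_norm_sq, Complex.normSq_apply]
      simp
      ring
    rw [Finset.sum_congr rfl fun i _ => e i, Finset.sum_add_distrib, Finset.sum_sub_distrib,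
      ← Finset.mul_sum, ← Finset.mul_sum, hα, ← Complex.re_sum, ← Finset.mul_sum, ← hσ]
    have : (conj σ * σ).re = ‖σ‖ ^ 2 := by
      rw [← Complex.normSq_eq_norm_sq, Complex.normSq_apply]
      simp
    rw [this]
  rw [hlast, Finset.sum_congr rfl fun j _ => by rw [hcast j]]
  have h3 : 2 * κ * ‖σ‖ ^ 2 - κ ^ 2 * ‖σ‖ ^ 2 * α - ‖σ‖ ^ 2 =
      ‖σ‖ ^ 2 * (α * (1 - α) * (3 + α) / 4) := by
    rw [hκ]; ring
  have h4 : 0 ≤ ‖σ‖ ^ 2 * (α * (1 - α) * (3 + α) / 4) := by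
    have : 0 ≤ 1 - α := by linarith
    positivity
  linarith

/-- If `(M ∘ A) y = r x` with `‖A‖ ≤ 1`, unit vectors `x`, `y`, and `x` has more than `r ^ 2`
nonzero entries, then some sign column can be added to `M` so that the multiplier norm
becomes larger than `r`. -/
lemma column_gain {p : Type*} [Fintype p] [DecidableEq p] {n : ℕ}
    (M A : Matrix p (Fin n) ℂ) (x : p → ℂ) (y : Fin n → ℂ) (r : ℝ) (hr : 0 < r)
    (hA : ‖A‖ ≤ 1) (hx : ∑ i, ‖x i‖ ^ 2 = 1) (hy : ∑ j, ‖y j‖ ^ 2 = 1)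
    (hz : ∀ i, ∑ j, M i j * A i j * y j = r * x i)
    (hk : r ^ 2 < ∑ i, (if x i ≠ 0 then (1 : ℝ) else 0)) :
    ∃ (m : p → ℝ) (A' : Matrix p (Fin (n + 1)) ℂ), (∀ i, m i = 1 ∨ m i = -1) ∧ ‖A'‖ ≤ 1 ∧
      r < ‖Matrix.hadamard (addCol M fun i => (m i : ℂ)) A'‖ := by
  obtain ⟨k, hkdef⟩ : ∃ k : ℝ, k = ∑ i, (if x i ≠ 0 then (1 : ℝ) else 0) := ⟨_, rfl⟩
  rw [← hkdef] at hk
  obtain ⟨c, hc⟩ : ∃ c : p → ℂ, ∀ i, c i = ((r : ℂ) * conj (x i))⁻¹ := ⟨_, fun _ => rfl⟩
  obtain ⟨B, hB⟩ : ∃ B : ℝ, B = ∑ i, ‖c i‖ ^ 2 := ⟨_, rfl⟩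
  have hB0 : 0 ≤ B := by rw [hB]; positivity
  have hk0 : 0 < k := lt_of_le_of_lt (by positivity) hk
  -- choice of the small parameter
  obtain ⟨s, hs⟩ : ∃ s : ℝ, s = (k - r ^ 2) / (2 * k * B + 1) := ⟨_, rfl⟩
  have hden : 0 < 2 * k * B + 1 := by positivity
  have hs0 : 0 < s := by rw [hs]; exact div_pos (by linarith) hden
  have hsm : s * (2 * k * B + 1) = k - r ^ 2 := by rw [hs]; field_simp
  have hsB1 : s * B ≤ 1 := by
    have h1 : 2 * k * (s * B) ≤ k := by nlinarith [sq_nonneg r]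
    have h2 : 0 ≤ s * B := by positivity
    nlinarith
  obtain ⟨t, ht⟩ : ∃ t : ℝ, t = Real.sqrt s := ⟨_, rfl⟩
  have htt : t * t = s := by rw [ht]; exact Real.mul_self_sqrt hs0.le
  have htc : (t : ℂ) * t = (s : ℂ) := by rw [← Complex.ofReal_mul, htt]
  obtain ⟨κ, hκ⟩ : ∃ κ : ℝ, κ = (1 + s * B) / 2 := ⟨_, rfl⟩
  -- signs
  obtain ⟨G, hG⟩ : ∃ G : p → p → ℂ, ∀ i l, G i l =
      conj (x i) * c i * conj (c l) * ∑ j, M i j * A l j * y j := ⟨_, fun _ _ => rfl⟩
  obtain ⟨m, hm, hmle⟩ := exists_signs (fun i l => (G i l).re) Finset.univ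
  have hmm : ∀ i, m i * m i = 1 := by
    intro i; rcases hm i with h | h <;> rw [h] <;> norm_num
  have hmc : ∀ i, (m i : ℂ) * m i = 1 := by
    intro i; rw [← Complex.ofReal_mul, hmm, Complex.ofReal_one]
  have hrc : (r : ℂ) ≠ 0 := by exact_mod_cast hr.ne'
  -- the diagonal of `G`
  have hxc : ∀ i, conj (x i) * c i = if x i ≠ 0 then ((1 / r : ℝ) : ℂ) else 0 := by
    intro i
    rw [hc]
    by_cases h : x i = 0
    · simp [h]
    · have h' : conj (x i) ≠ 0 := by simpa using h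
      rw [if_pos h]
      push_cast
      field_simp
  have hxc' : ∀ i, conj (c i) * x i = if x i ≠ 0 then ((1 / r : ℝ) : ℂ) else 0 := by
    intro i
    have := congrArg conj (hxc i)
    rw [map_mul, Complex.conj_conj, mul_comm] at this
    rw [this]
    split_ifs <;> simp
  have hGd : ∀ i, (G i i).re = if x i ≠ 0 then (1 / r : ℝ) else 0 := by
    intro i
    rw [hG, hz]
    have : conj (x i) * c i * conj (c i) * (r * x i)
        = (conj (x i) * c i) * (conj (c i) * x i) * r := by ring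
    rw [this, hxc, hxc']
    by_cases h : x i = 0
    · simp [h]
    · rw [if_pos h, if_pos h, ← Complex.ofReal_mul, ← Complex.ofReal_mul, Complex.ofReal_re]
      field_simp
  have hGsum : ∑ i, (G i i).re = k / r := by
    rw [Finset.sum_congr rfl fun i _ => hGd i, hkdef, Finset.sum_div]
    refine Finset.sum_congr rfl fun i _ => ?_
    split_ifs <;> simp
  -- the new column
  obtain ⟨a, ha⟩ : ∃ a : p → ℂ, ∀ i, a i = t * m i * c i := ⟨_, fun _ => rfl⟩
  have hα : ∑ i, ‖a i‖ ^ 2 = s * B := by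
    rw [hB, Finset.mul_sum]
    refine Finset.sum_congr rfl fun i _ => ?_
    rw [ha, norm_mul, norm_mul, Complex.norm_real, Complex.norm_real, mul_pow, mul_pow,
      Real.norm_eq_abs, Real.norm_eq_abs, sq_abs, sq_abs, pow_two t, pow_two (m i), htt, hmm,
      mul_one]
  have hcon := contraction_aux A hA a (s * B) κ hα hsB1 hκ
  obtain ⟨A', hA'⟩ : ∃ A' : Matrix p (Fin (n + 1)) ℂ, A' =
      addCol (Matrix.of fun i j => A i j - κ * a i * ∑ l, conj (a l) * A l j) a := ⟨_, rfl⟩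
  rw [← hA'] at hcon
  refine ⟨m, A', hm, hcon, ?_⟩
  by_contra hlt
  rw [not_lt] at hlt
  obtain ⟨N, hN⟩ : ∃ N : Matrix p (Fin (n + 1)) ℂ,
    N = Matrix.hadamard (addCol M fun i => (m i : ℂ)) A' := ⟨_, rfl⟩
  rw [← hN] at hlt
  obtain ⟨y', hy'⟩ : ∃ y' : Fin (n + 1) → ℂ, y' = Fin.snoc (α := fun _ => ℂ) y (t : ℂ) :=
    ⟨_, rfl⟩
  have hw : ∀ i, (N *ᵥ y') i = r * x i
      - κ * (a i * ∑ l, conj (a l) * ∑ j, M i j * A l j * y j) + m i * a i * t := by
    intro i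
    rw [Matrix.mulVec, dotProduct, Fin.sum_univ_castSucc]
    simp only [hN, hA', Matrix.hadamard_apply, addCol_castSucc, addCol_last, hy',
      Fin.snoc_castSucc, Fin.snoc_last, Matrix.of_apply]
    congr 1
    have : ∀ j, M i j * (A i j - κ * a i * ∑ l, conj (a l) * A l j) * y j
        = M i j * A i j * y j - κ * (a i * ∑ l, conj (a l) * (M i j * A l j * y j)) := by
      intro j
      have e : ∑ l, conj (a l) * (M i j * A l j * y j)
          = (∑ l, conj (a l) * A l j) * (M i j * y j) := by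
        rw [Finset.sum_mul]
        exact Finset.sum_congr rfl fun l _ => by ring
      rw [e]; ring
    rw [Finset.sum_congr rfl fun j _ => this j, Finset.sum_sub_distrib, hz, ← Finset.mul_sum,
      ← Finset.mul_sum, Finset.sum_comm]
    congr 3
    refine Finset.sum_congr rfl fun l _ => ?_
    rw [Finset.mul_sum]
  have hnorm : ∑ i, ‖(N *ᵥ y') i‖ ^ 2 ≤ r ^ 2 * (1 + s) := by
    refine (mulVec_sq_le N y').trans ?_
    have h1 : ∑ j, ‖y' j‖ ^ 2 = 1 + s := by
      rw [Fin.sum_univ_castSucc]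
      simp only [hy', Fin.snoc_castSucc, Fin.snoc_last, hy, Complex.norm_real,
        Real.norm_eq_abs, sq_abs]
      rw [pow_two, htt]
    rw [h1]
    have : ‖N‖ ^ 2 ≤ r ^ 2 := pow_le_pow_left₀ (norm_nonneg _) hlt 2
    nlinarith
  -- the value of the sesquilinear form
  have hval : (∑ i, conj (x i) * (N *ᵥ y') i).re
      = r - κ * s * (∑ i, ∑ l, m i * m l * (G i l).re) + s * (k / r) := by
    have e : ∀ i, conj (x i) * (N *ᵥ y') i = r * (‖x i‖ ^ 2 : ℝ)
        - κ * s * (∑ l, (m i * m l : ℝ) * G i l)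
        + s * (if x i ≠ 0 then ((1 / r : ℝ) : ℂ) else 0) := by
      intro i
      rw [hw]
      have e1 : conj (x i) * (r * x i) = r * (‖x i‖ ^ 2 : ℝ) := by
        have : conj (x i) * x i = ((‖x i‖ ^ 2 : ℝ) : ℂ) := by
          rw [← Complex.normSq_eq_norm_sq, mul_comm, Complex.mul_conj]
        rw [← this]; ring
      have e2 : conj (x i) * (a i * ∑ l, conj (a l) * ∑ j, M i j * A l j * y j)
          = s * (∑ l, (m i * m l : ℝ) * G i l) := by
        rw [Finset.mul_sum, Finset.mul_sum, Finset.mul_sum]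
        refine Finset.sum_congr rfl fun l _ => ?_
        rw [hG, ha, ha, ← htc]
        simp only [map_mul, Complex.conj_ofReal]
        push_cast
        ring
      have e3 : conj (x i) * (m i * a i * t)
          = s * (if x i ≠ 0 then ((1 / r : ℝ) : ℂ) else 0) := by
        rw [← hxc, ha, ← htc]
        have := hmc i
        linear_combination (t * t * (conj (x i) * c i)) * this
      rw [mul_add, mul_sub, e1, e3]
      linear_combination (-(κ : ℂ)) * e2
    rw [Finset.sum_congr rfl fun i _ => e i, Finset.sum_add_distrib, Finset.sum_sub_distrib,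
      ← Finset.mul_sum, ← Finset.mul_sum, ← Finset.mul_sum]
    have e5 : (∑ i, (if x i ≠ 0 then ((1 / r : ℝ) : ℂ) else 0)) = ((k / r : ℝ) : ℂ) := by
      rw [hkdef, Finset.sum_div, Complex.ofReal_sum]
      refine Finset.sum_congr rfl fun i _ => ?_
      split_ifs <;> simp
    have e6 : (∑ i, ((‖x i‖ ^ 2 : ℝ) : ℂ)) = 1 := by
      rw [← Complex.ofReal_sum, hx, Complex.ofReal_one]
    rw [e5, e6, mul_one, ← Complex.ofReal_mul, ← Complex.ofReal_mul, Complex.add_re,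
      Complex.sub_re, Complex.ofReal_re, Complex.ofReal_re, Complex.re_ofReal_mul,
      Complex.re_sum]
    congr 3
    refine Finset.sum_congr rfl fun i _ => ?_
    rw [Complex.re_sum]
    refine Finset.sum_congr rfl fun l _ => ?_
    rw [Complex.re_ofReal_mul]
  have hκ0 : 0 ≤ κ := by rw [hκ]; positivity
  have hκ1 : κ ≤ 1 := by rw [hκ]; linarith
  have hlow : r + (1 - κ) * (s * (k / r)) ≤ (∑ i, conj (x i) * (N *ᵥ y') i).re := by
    rw [hval]
    have h1 : ∑ i, ∑ l, m i * m l * (G i l).re ≤ k / r := by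
      rw [← hGsum]; exact hmle
    have h2 : κ * s * (∑ i, ∑ l, m i * m l * (G i l).re) ≤ κ * s * (k / r) :=
      mul_le_mul_of_nonneg_left h1 (by positivity)
    linarith
  have hup : (∑ i, conj (x i) * (N *ᵥ y') i).re ≤ ∑ i, ‖x i‖ * ‖(N *ᵥ y') i‖ := by
    refine (Complex.re_le_norm _).trans ((norm_sum_le _ _).trans (le_of_eq ?_))
    refine Finset.sum_congr rfl fun i _ => ?_
    rw [norm_mul, RCLike.norm_conj]
  have hcs : (∑ i, ‖x i‖ * ‖(N *ᵥ y') i‖) ^ 2 ≤ r ^ 2 * (1 + s) := by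
    refine (Finset.sum_mul_sq_le_sq_mul_sq _ _ _).trans ?_
    rw [hx, one_mul]; exact hnorm
  have hkr : 0 ≤ (1 - κ) * (s * (k / r)) := by
    have : 0 ≤ 1 - κ := by linarith
    positivity
  have h9 : (r + (1 - κ) * (s * (k / r))) ^ 2 ≤ r ^ 2 * (1 + s) := by
    refine (pow_le_pow_left₀ (by positivity) (hlow.trans hup) 2).trans hcs
  have h10 : r * (k / r) = k := by field_simp
  have h11 : 2 * ((1 - κ) * (s * k)) ≤ r ^ 2 * s := by
    have : (r + (1 - κ) * (s * (k / r))) ^ 2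
        = r ^ 2 + 2 * ((1 - κ) * (s * (r * (k / r)))) + ((1 - κ) * (s * (k / r))) ^ 2 := by ring
    rw [this, h10] at h9
    nlinarith [sq_nonneg ((1 - κ) * (s * (k / r)))]
  have h12 : 2 * ((1 - κ) * k) ≤ r ^ 2 := by
    have : 2 * ((1 - κ) * (s * k)) = (2 * ((1 - κ) * k)) * s := by ring
    rw [this] at h11
    exact le_of_mul_le_mul_right h11 hs0
  rw [hκ] at h12
  nlinarith [hsm, hs0, hB0, hk0]

/-! ### Suprema are attained -/

lemma hadamard_continuous {n : ℕ} (M : Matrix (Fin n) (Fin n) ℂ) :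
    Continuous fun A : Matrix (Fin n) (Fin n) ℂ => ‖Matrix.hadamard M A‖ := by
  have h : Continuous fun A : Matrix (Fin n) (Fin n) ℂ => Matrix.hadamard M A := by
    refine continuous_matrix fun i j => ?_
    simp only [Matrix.hadamard_apply]
    exact continuous_const.mul (continuous_id.matrix_elem i j)
  exact continuous_norm.comp h

lemma schur_set_eq {n : ℕ} (M : Matrix (Fin n) (Fin n) ℂ) :
    {t : ℝ | ∃ A : Matrix (Fin n) (Fin n) ℂ, ‖A‖ ≤ 1 ∧ t = ‖Matrix.hadamard M A‖} =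
      (fun A : Matrix (Fin n) (Fin n) ℂ => ‖Matrix.hadamard M A‖) ''
        Metric.closedBall 0 1 := by
  ext t
  simp only [Set.mem_ofPred_eq, Set.mem_image, Metric.mem_closedBall, dist_zero_right]
  constructor
  · rintro ⟨A, h, rfl⟩; exact ⟨A, h, rfl⟩
  · rintro ⟨A, h, rfl⟩; exact ⟨A, h, rfl⟩

lemma le_schurNorm {n : ℕ} (M A : Matrix (Fin n) (Fin n) ℂ) (hA : ‖A‖ ≤ 1) :
    ‖Matrix.hadamard M A‖ ≤ schurNorm M := by
  unfold schurNorm
  rw [schur_set_eq]
  refine le_csSup ?_ ⟨A, by simpa using hA, rfl⟩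
  exact (isCompact_closedBall _ _).bddAbove_image (hadamard_continuous M).continuousOn

lemma schurNorm_attained {n : ℕ} (M : Matrix (Fin n) (Fin n) ℂ) :
    ∃ A : Matrix (Fin n) (Fin n) ℂ, ‖A‖ ≤ 1 ∧ ‖Matrix.hadamard M A‖ = schurNorm M := by
  obtain ⟨A, hA, hmax⟩ := (isCompact_closedBall (0 : Matrix (Fin n) (Fin n) ℂ) 1).exists_isMaxOn
    ⟨0, by simp⟩ (hadamard_continuous M).continuousOn
  have hA1 : ‖A‖ ≤ 1 := by simpa using hA
  refine ⟨A, hA1, le_antisymm (le_schurNorm M A hA1) ?_⟩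
  unfold schurNorm
  rw [schur_set_eq]
  refine csSup_le ⟨_, ⟨0, by simp, rfl⟩⟩ ?_
  rintro _ ⟨B, hB, rfl⟩
  exact hmax hB

lemma finite_signMatrices (n : ℕ) : (signMatrices n).Finite := by
  have h1 : ({1, -1} : Set ℂ).Finite := by simp
  have h2 : {v : Fin n → ℂ | ∀ j, v j ∈ ({1, -1} : Set ℂ)}.Finite := Set.Finite.pi' fun _ => h1
  have h3 : {M : Fin n → Fin n → ℂ | ∀ i, M i ∈ {v : Fin n → ℂ | ∀ j, v j ∈ ({1, -1} : Set ℂ)}}.Finite :=
    Set.Finite.pi' fun _ => h2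
  refine h3.subset ?_
  intro M hM i j
  rcases hM i j with h | h <;> rw [h] <;> simp

lemma schurNorm_le_r {n : ℕ} {M : Matrix (Fin n) (Fin n) ℂ} (hM : M ∈ signMatrices n) :
    schurNorm M ≤ r n :=
  le_csSup ((finite_signMatrices n).image _).bddAbove ⟨M, hM, rfl⟩

lemma r_attained (n : ℕ) : ∃ M ∈ signMatrices n, schurNorm M = r n := by
  have hne : (schurNorm '' signMatrices n).Nonempty :=
    ⟨_, ⟨fun _ _ => 1, fun _ _ => Or.inl rfl, rfl⟩⟩
  obtain ⟨M, hM, h⟩ := hne.csSup_mem ((finite_signMatrices n).image _)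
  exact ⟨M, hM, h⟩

lemma r_pos {n : ℕ} (hn : 1 ≤ n) : 0 < r n := by
  obtain ⟨M, hM, hMr⟩ := r_attained n
  rw [← hMr]
  have i0 : Fin n := ⟨0, hn⟩
  obtain ⟨A, hA⟩ : ∃ A : Matrix (Fin n) (Fin n) ℂ, A = Matrix.diagonal fun _ => 1 := ⟨_, rfl⟩
  have hA1 : ‖A‖ ≤ 1 := by
    rw [hA, Matrix.l2_opNorm_diagonal]
    refine (pi_norm_le_iff_of_nonneg zero_le_one).2 fun i => by simp
  refine lt_of_lt_of_le ?_ (le_schurNorm M A hA1)
  rw [norm_pos_iff]
  intro h
  have h1 := congrFun (congrFun h i0) i0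
  rw [Matrix.hadamard_apply, hA, Matrix.diagonal_apply_eq, mul_one, Matrix.zero_apply] at h1
  rcases hM i0 i0 with h2 | h2 <;> rw [h2] at h1 <;> norm_num at h1

/-! ### Duplicating a row -/

/-- `Fin (n + 1) → Fin n`, the last index being sent to `i0`. -/
def dup {n : ℕ} (i0 : Fin n) : Fin (n + 1) → Fin n :=
  Fin.snoc (α := fun _ => Fin n) id i0

/-- Weights: `1` on rows different from `i0`, `1/√2` on the two copies of `i0`. -/
noncomputable def wt {n : ℕ} (i0 : Fin n) : Fin (n + 1) → ℝ :=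
  Fin.snoc (α := fun _ => ℝ) (fun i => if i = i0 then Real.sqrt (1 / 2) else 1)
    (Real.sqrt (1 / 2))

lemma sum_dup {n : ℕ} (i0 : Fin n) (g : Fin n → ℝ) :
    ∑ i, wt i0 i ^ 2 * g (dup i0 i) = ∑ i, g i := by
  have h2 : Real.sqrt (1 / 2) ^ 2 = 1 / 2 := Real.sq_sqrt (by norm_num)
  rw [Fin.sum_univ_castSucc]
  simp only [wt, dup, Fin.snoc_castSucc, Fin.snoc_last, id]
  rw [h2]
  have : ∀ i, (if i = i0 then Real.sqrt (1 / 2) else 1) ^ 2 * g i
      = g i - (if i = i0 then 1 / 2 * g i else 0) := by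
    intro i
    split_ifs
    · rw [h2]; ring
    · ring
  rw [Finset.sum_congr rfl fun i _ => this i, Finset.sum_sub_distrib, Finset.sum_ite_eq']
  simp

lemma wt_pos {n : ℕ} (i0 : Fin n) (i : Fin (n + 1)) : 0 < wt i0 i := by
  have h2 : 0 < Real.sqrt (1 / 2) := Real.sqrt_pos.2 (by norm_num)
  refine Fin.lastCases ?_ (fun i => ?_) i
  · simp only [wt, Fin.snoc_last]; exact h2
  · simp only [wt, Fin.snoc_castSucc]
    split_ifs
    · exact h2
    · exact one_pos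

/-- **Main result.** The sequence `(r_n)_{n ≥ 1}` is strictly increasing. -/
theorem result : ∀ n : ℕ, 1 ≤ n → r n < r (n + 1) := by
  intro n hn
  have hr := r_pos hn
  obtain ⟨M, hM, hMr⟩ := r_attained n
  obtain ⟨A, hA, hAM⟩ := schurNorm_attained M
  obtain ⟨ρ, hρ⟩ : ∃ ρ : ℝ, ρ = r n := ⟨_, rfl⟩
  rw [← hρ] at hr hMr ⊢
  rw [hMr] at hAM
  obtain ⟨y, hy, hyv⟩ := exists_unit (Matrix.hadamard M A) (by rw [hAM]; exact hr)
  rw [hAM] at hyv
  have hρc : (ρ : ℂ) ≠ 0 := by exact_mod_cast hr.ne'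
  obtain ⟨x, hx⟩ : ∃ x : Fin n → ℂ, ∀ i, x i = (ρ : ℂ)⁻¹ * (Matrix.hadamard M A *ᵥ y) i :=
    ⟨_, fun _ => rfl⟩
  have hxn : ∑ i, ‖x i‖ ^ 2 = 1 := by
    have : ∀ i, ‖x i‖ ^ 2 = (ρ⁻¹) ^ 2 * ‖(Matrix.hadamard M A *ᵥ y) i‖ ^ 2 := by
      intro i
      rw [hx, norm_mul, norm_inv, Complex.norm_real, Real.norm_eq_abs, abs_of_pos hr, mul_pow]
    rw [Finset.sum_congr rfl fun i _ => this i, ← Finset.mul_sum, hyv]
    field_simp
  have hz : ∀ i, ∑ j, M i j * A i j * y j = ρ * x i := by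
    intro i
    rw [hx]
    simp only [Matrix.mulVec, dotProduct, Matrix.hadamard_apply]
    field_simp
  -- each `r * |x i|` is at most one
  have hxi : ∀ i, ρ ^ 2 * ‖x i‖ ^ 2 ≤ if x i ≠ 0 then (1 : ℝ) else 0 := by
    intro i
    by_cases h : x i = 0
    · simp [h]
    rw [if_pos h]
    have h1 : ρ * ‖x i‖ ≤ ∑ j, ‖A i j‖ * ‖y j‖ := by
      have : ρ * ‖x i‖ = ‖(ρ : ℂ) * x i‖ := by
        rw [norm_mul, Complex.norm_real, Real.norm_eq_abs, abs_of_pos hr]
      rw [this, ← hz]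
      refine (norm_sum_le _ _).trans (le_of_eq ?_)
      refine Finset.sum_congr rfl fun j _ => ?_
      rw [norm_mul, norm_mul]
      have : ‖M i j‖ = 1 := by
        rcases hM i j with h | h <;> rw [h] <;> simp
      rw [this, one_mul]
    have h2 : ∑ j, ‖A i j‖ ^ 2 ≤ 1 := by
      have h3 := mulVec_sq_le Aᴴ (Pi.single i 1)
      rw [Matrix.l2_opNorm_conjTranspose] at h3
      have h4 : ∑ j, ‖(Aᴴ *ᵥ Pi.single i 1) j‖ ^ 2 = ∑ j, ‖A i j‖ ^ 2 := by
        refine Finset.sum_congr rfl fun j _ => ?_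
        rw [Matrix.mulVec_single_one]
        simp [Matrix.col_apply, Matrix.conjTranspose_apply]
      have h5 : ∑ j, ‖(Pi.single i 1 : Fin n → ℂ) j‖ ^ 2 = 1 := by
        rw [Finset.sum_eq_single i]
        · simp
        · intro b _ hb; simp [Pi.single_eq_of_ne hb]
        · simp
      rw [h4, h5, mul_one] at h3
      exact h3.trans (pow_le_one₀ (norm_nonneg _) hA)
    have h6 : (∑ j, ‖A i j‖ * ‖y j‖) ^ 2 ≤ 1 := by
      refine (Finset.sum_mul_sq_le_sq_mul_sq _ _ _).trans ?_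
      rw [hy, mul_one]; exact h2
    have h7 := pow_le_pow_left₀ (by positivity) h1 2
    rw [mul_pow] at h7
    exact h7.trans h6
  have hk : ρ ^ 2 ≤ ∑ i, if x i ≠ 0 then (1 : ℝ) else 0 := by
    have := Finset.sum_le_sum fun i (_ : i ∈ Finset.univ) => hxi i
    rwa [← Finset.mul_sum, hxn, mul_one] at this
  -- a row in the support of `x`
  obtain ⟨i0, hi0⟩ : ∃ i, x i ≠ 0 := by
    by_contra h
    push Not at h
    simp [h] at hxn
  obtain ⟨M1, hM1⟩ : ∃ M1 : Matrix (Fin (n + 1)) (Fin n) ℂ, ∀ i j, M1 i j = M (dup i0 i) j :=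
    ⟨_, fun _ _ => rfl⟩
  obtain ⟨A1, hA1⟩ : ∃ A1 : Matrix (Fin (n + 1)) (Fin n) ℂ,
      ∀ i j, A1 i j = wt i0 i * A (dup i0 i) j := ⟨_, fun _ _ => rfl⟩
  obtain ⟨x1, hx1⟩ : ∃ x1 : Fin (n + 1) → ℂ, ∀ i, x1 i = wt i0 i * x (dup i0 i) :=
    ⟨_, fun _ => rfl⟩
  have hA1n : ‖A1‖ ≤ 1 := by
    apply norm_le_one_of
    intro v
    have h1 : ∀ i, ‖(A1 *ᵥ v) i‖ ^ 2 = wt i0 i ^ 2 * ‖(A *ᵥ v) (dup i0 i)‖ ^ 2 := by
      intro i
      have : (A1 *ᵥ v) i = wt i0 i * (A *ᵥ v) (dup i0 i) := by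
        simp only [Matrix.mulVec, dotProduct, hA1, Finset.mul_sum, mul_assoc]
      rw [this, norm_mul, mul_pow, Complex.norm_real, Real.norm_eq_abs, sq_abs]
    rw [Finset.sum_congr rfl fun i _ => h1 i, sum_dup i0 fun i => ‖(A *ᵥ v) i‖ ^ 2]
    refine (mulVec_sq_le A v).trans ?_
    have h2 : ‖A‖ ^ 2 ≤ 1 := pow_le_one₀ (norm_nonneg _) hA
    have h0 : 0 ≤ ∑ i, ‖v i‖ ^ 2 := by positivity
    nlinarith
  have hx1n : ∑ i, ‖x1 i‖ ^ 2 = 1 := by
    have h1 : ∀ i, ‖x1 i‖ ^ 2 = wt i0 i ^ 2 * ‖x (dup i0 i)‖ ^ 2 := by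
      intro i
      rw [hx1, norm_mul, mul_pow, Complex.norm_real, Real.norm_eq_abs, sq_abs]
    rw [Finset.sum_congr rfl fun i _ => h1 i, sum_dup i0 fun i => ‖x i‖ ^ 2, hxn]
  have hz1 : ∀ i, ∑ j, M1 i j * A1 i j * y j = ρ * x1 i := by
    intro i
    have := hz (dup i0 i)
    rw [hx1]
    calc ∑ j, M1 i j * A1 i j * y j
        = wt i0 i * ∑ j, M (dup i0 i) j * A (dup i0 i) j * y j := by
          rw [Finset.mul_sum]
          refine Finset.sum_congr rfl fun j _ => ?_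
          rw [hM1, hA1]; ring
      _ = _ := by rw [this]; ring
  have hk1 : ρ ^ 2 < ∑ i, (if x1 i ≠ 0 then (1 : ℝ) else 0) := by
    have h1 : ∀ i, (if x1 i ≠ 0 then (1 : ℝ) else 0) = if x (dup i0 i) ≠ 0 then 1 else 0 := by
      intro i
      have : (wt i0 i : ℂ) ≠ 0 := by exact_mod_cast (wt_pos i0 i).ne'
      simp [hx1, this]
    rw [Finset.sum_congr rfl fun i _ => h1 i, Fin.sum_univ_castSucc]
    simp only [dup, Fin.snoc_castSucc, Fin.snoc_last, id]
    rw [if_pos hi0]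
    linarith
  obtain ⟨m, A', hm, hA', hgt⟩ := column_gain M1 A1 x1 y ρ hr hA1n hx1n hy hz1 hk1
  refine hgt.trans_le ((le_schurNorm _ A' hA').trans (schurNorm_le_r ?_))
  intro i j
  refine Fin.lastCases ?_ (fun j => ?_) j
  · rw [addCol_last]
    rcases hm i with h | h <;> rw [h] <;> simp
  · rw [addCol_castSucc, hM1]
    exact hM _ _

end Pool.Agent.Results.MP_c77999_an.StrictMono
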