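import Pool.Agent.Lib_helper41.CF.Even
import Pool.Agent.Lib_helper19.PAL.Paley

set_option autoImplicit false

/-! # The maximal Schur multiplier norm of sign matrices: orders of conference matrices

`r n` (the maximum of the Schur multiplier norm over all `n × n` matrices with entries `1`, `-1`) is
at least `√(n - 1 + 1 / (n - 1))` whenever there is a conference matrix of order `n ≥ 2`; so
`r n > √(n - 1)` for these `n`, in particular for `n = q + 1` with `q` any odd prime power. -/

namespace Pool.Agent.Results.MP_c77999_an.ConferenceOrders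

open Pool.Agent.Results.MP_c77999_an.StrictMono Pool.Agent.Lib_helper41.CF

theorem result :
    (∀ (n : ℕ) (C : Matrix (Fin n) (Fin n) ℝ), 2 ≤ n → (∀ a, C a a = 0) →
      (∀ a b, a ≠ b → C a b = 1 ∨ C a b = -1) →
      C * C.transpose = ((n : ℝ) - 1) • (1 : Matrix (Fin n) (Fin n) ℝ) →
      Real.sqrt ((n : ℝ) - 1 + 1 / ((n : ℝ) - 1)) ≤ r n ∧ Real.sqrt ((n : ℝ) - 1) < r n) ∧
    (∀ p k : ℕ, p.Prime → p ≠ 2 → 1 ≤ k →
      Real.sqrt ((p : ℝ) ^ k + 1 / (p : ℝ) ^ k) ≤ r (p ^ k + 1) ∧
        Real.sqrt ((p : ℝ) ^ k) < r (p ^ k + 1)) := by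
  refine ⟨?_, ?_⟩
  · intro n C hn h0 h1 hC
    have hij : (⟨0, by omega⟩ : Fin n) ≠ ⟨1, by omega⟩ := by
      intro h
      have := congrArg Fin.val h
      simp at this
    have h := conf_le (Fintype.card_fin n) C h0 h1 hC hij
    rw [one_div]
    exact ⟨h, conf_lt hn h⟩
  · intro p k hp hp2 hk
    classical
    have : Fact p.Prime := ⟨hp⟩
    have : Fintype (GaloisField p k) := Fintype.ofFinite _
    have hcard : Fintype.card (GaloisField p k) = p ^ k := by
      rw [← Nat.card_eq_fintype_card]
      exact GaloisField.card p k (by omega)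
    have hchar : ringChar (GaloisField p k) ≠ 2 := by
      rw [ringChar.eq (GaloisField p k) p]
      exact hp2
    obtain ⟨C, h0, h1, h2⟩ := Pool.Agent.Lib_helper19.PAL.paley (GaloisField p k) hchar
    have hc : Fintype.card (Option (GaloisField p k)) = p ^ k + 1 := by
      rw [Fintype.card_option, hcard]
    have e : (((p ^ k + 1 : ℕ) : ℝ) - 1) = (p : ℝ) ^ k := by push_cast; ring
    have hC : C * C.transpose = (((p ^ k + 1 : ℕ) : ℝ) - 1) •
        (1 : Matrix (Option (GaloisField p k)) (Option (GaloisField p k)) ℝ) := by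
      rw [h2, hcard, e]; push_cast; rfl
    have hij : (none : Option (GaloisField p k)) ≠ some 0 := by simp
    have h := conf_le hc C h0 h1 hC hij
    have h3 := conf_lt (by have := Nat.pos_of_ne_zero (pow_ne_zero k hp.ne_zero); omega) h
    rw [e] at h h3
    rw [one_div]
    exact ⟨h, h3⟩

end Pool.Agent.Results.MP_c77999_an.ConferenceOrders
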