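import Pool.Agent.Lib_helper47.NH.DetR
import Pool.Agent.Lib_helper47.NH.Fam
import Pool.Agent.Lib_helper47.NH.FamAll

/-!
# MP_c77999_an: determinants and the maximal Schur multiplier norm

Parts (1)-(3): helper47 (second copy helper30); `r n` from below: helper97. Parts (4), (5): helper97.
Part (6): helper92 (for odd `q` also helper78, helper86, helper69).
-/

set_option autoImplicit false

namespace Pool.Agent.Results.MP_c77999_an.DeterminantBound

open Pool.Agent.Results.MP_c77999_an.StrictMono (r)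

/-- For every `n × n` matrix `M` with entries `1` or `-1`: the pairing of `M` with an orthogonal
matrix is at most `n r_n`, hence `|det M| ≤ r_n ^ n`, and Q1 holds for `n` as soon as
`(det M) ^ 2 > (n - 1) ^ n`; so it holds for the orders of Barba and Ehlich-Wojtas matrices, and for
`n = 2 (q ^ 2 + q + 1)`, `q` a prime power. -/
theorem result :
    (∀ (n : ℕ) (M : Matrix (Fin n) (Fin n) ℝ), (∀ i j, M i j = 1 ∨ M i j = -1) →
      (∀ A : Matrix (Fin n) (Fin n) ℝ, A.transpose * A = 1 →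
        ∑ i, ∑ j, M i j * A i j ≤ n * r n) ∧
      |M.det| ≤ r n ^ n ∧
      (1 ≤ n → ((n : ℝ) - 1) ^ n < M.det ^ 2 → Real.sqrt ((n : ℝ) - 1) < r n)) ∧
    (∀ (n : ℕ) (M : Matrix (Fin n) (Fin n) ℝ), 2 ≤ n → (∀ i j, M i j = 1 ∨ M i j = -1) →
      (∀ i j, (M * M.transpose) i j = if i = j then (n : ℝ) else 1) →
      Real.sqrt ((n : ℝ) - 1) < r n) ∧
    (∀ (n b : ℕ) (M : Matrix (Fin 2 × Fin b) (Fin 2 × Fin b) ℝ), n = 2 * b → 2 ≤ b →
      (∀ i j, M i j = 1 ∨ M i j = -1) →
      (∀ i j, (M * M.transpose) i j = if i = j then (n : ℝ) else if i.1 = j.1 then 2 else 0) →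
      Real.sqrt ((n : ℝ) - 1) < r n) ∧
    (∀ (G : Type) [AddCommGroup G] [Fintype G] [DecidableEq G] (n : ℕ) (a b : G → ℝ),
      n = 2 * Fintype.card G → 2 ≤ Fintype.card G →
      (∀ g, a g = 1 ∨ a g = -1) → (∀ g, b g = 1 ∨ b g = -1) →
      (∀ g, g ≠ 0 → ∑ x, (a x * a (x + g) + b x * b (x + g)) = 2) →
      Real.sqrt ((n : ℝ) - 1) < r n) ∧
    (∀ (p k n : ℕ), p.Prime → 1 ≤ k → n = 2 * ((p ^ k) ^ 2 + p ^ k + 1) →
      Real.sqrt ((n : ℝ) - 1) < r n) := by
  refine ⟨?_, ?_, ?_, ?_, ?_⟩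
  · intro n M hM
    exact ⟨fun A hA => Pool.Agent.Lib_helper47.NH.pairing_le n (Fintype.card_fin n) M A hM hA,
      Pool.Agent.Lib_helper47.NH.det_le n (Fintype.card_fin n) M hM,
      fun hn hd => Pool.Agent.Lib_helper47.NH.of_det n (Fintype.card_fin n) hn M hM hd⟩
  · intro n M hn hM hG
    exact Pool.Agent.Lib_helper97.SN.barba n hn M hM hG
  · intro n b M hn hb hM hG
    exact Pool.Agent.Lib_helper47.NH.ew_n n b hn hb M hM hG
  · intro G _ _ _ n a b hn h2 ha hb h
    exact Pool.Agent.Lib_helper47.NH.pair_order n hn h2 a b ha hb h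
  · intro p k n hp hk hn
    exact Pool.Agent.Lib_helper47.NH.family_all p k n hp hk hn

end Pool.Agent.Results.MP_c77999_an.DeterminantBound
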