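import Pool.Agent.Lib_helper58.SN.Final2
import Pool.Agent.Lib_helper80.NH.All57

/-!
# MP_c77999_an: the inequality r_n > sqrt(n-1) near Hadamard orders
-/

open Pool.Agent.Results.MP_c77999_an.StrictMono Pool.Agent.Lib_helper58.SN

namespace Pool.Agent.Results.MP_c77999_an.NearHadamardOrders

theorem result :
    (∀ n N : ℕ, 1 ≤ n → (N = n + 1 ∨ N = n ∨ N + 1 = n) → HadamardOrder N →
      √((n : ℝ) - 1) < r n) ∧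
    (∀ N : ℕ, 1 ≤ N → TwistedPair N → √(((N + 2 : ℕ) : ℝ) - 1) < r (N + 2)) ∧
    ((∀ j : ℕ, 1 ≤ j → TwistedPair (2 ^ j)) ∧
      (∀ (l : ℕ) [NeZero l], PeriodicGolay l → TwistedPair (2 * l)) ∧
      ∀ M N : ℕ, (TwistedPair M ∨ RegularOrder M) → TwistedPair N → TwistedPair (M * N)) ∧
    (∀ j : ℕ, 1 ≤ j → ∀ n : ℕ,
      (n + 1 = 2 ^ j ∨ n = 2 ^ j ∨ n = 2 ^ j + 1 ∨ n = 2 ^ j + 2) → √((n : ℝ) - 1) < r n) ∧
    (∀ a b c : ℕ, 1 ≤ a + b + c →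
      √(((2 ^ a * 20 ^ b * 52 ^ c + 2 : ℕ) : ℝ) - 1) < r (2 ^ a * 20 ^ b * 52 ^ c + 2)) ∧
    ∀ n : ℕ, 1 ≤ n → n ≤ 57 → √((n : ℝ) - 1) < r n :=
  ⟨near, twisted, ⟨pair_two_pow, pair_golay, pair_mul⟩, powers_two, three,
    Pool.Agent.Lib_helper80.NH.all57⟩

end Pool.Agent.Results.MP_c77999_an.NearHadamardOrders
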